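import Pool.Agent.helper3.SP.SpecPP

namespace TP

open DP MeasureTheory

theorem PP28_glue {c : V → Bool} {k : Bool} {R U W : Set V} (hU : CnS c k R U) (hW : CnS c k R W)
    (h : (U ∩ W).Nonempty) : CnS c k R (U ∪ W) := by
  obtain ⟨o, ho1, ho2⟩ := h
  have key : ∀ z ∈ U ∪ W, DP.Con (U ∪ W) z o := by
    rintro z (hz | hz)
    · exact DP.Con.mono Set.subset_union_left (hU.2 z hz o ho1)
    · exact DP.Con.mono Set.subset_union_right (hW.2 z hz o ho2)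
  refine ⟨?_, fun z hz z' hz' => DP.Con.trans (key z hz) (DP.Con.symm (key z' hz'))⟩
  rintro v (hv | hv)
  · exact hU.1 v hv
  · exact hW.1 v hv

theorem PP28_reg {c : V → Bool} {k : Bool} {R R' U : Set V} (hR : R ⊆ R') (hU : CnS c k R U) :
    CnS c k R' U := ⟨fun v hv => ⟨hR (hU.1 v hv).1, (hU.1 v hv).2⟩, hU.2⟩

theorem PP28_hok {U U' : Set V} {A : V} {r : ℕ} (h : U ⊆ U') (hU : Hok U A r) : Hok U' A r :=
  fun W u v h1 h2 h3 => (hU W u v h1 h2 h3).mono (Set.inter_subset_inter_left W h)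

/-- The component of an arm. -/
theorem PP28_comp {c : V → Bool} {k : Bool} {R : Set V} {p u : V} (h : Conn c k R p u) :
    ∃ W : Set V, CnS c k R W ∧ DP.Con W p u := by
  have hcl : ∀ v, DP.Con {w | w ∈ R ∧ c w = k} p v →
      DP.Con {z | DP.Con {w | w ∈ R ∧ c w = k} p z} p v := by
    intro v hv
    refine DP.Con.induct hv (fun z => DP.Con {z | DP.Con {w | w ∈ R ∧ c w = k} p z} p z) ?_ ?_
    · exact DP.Con.refl (DP.Con.refl hv.mem_left)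
    · intro a b ha hb hab hpa ih
      exact DP.Con.tail ih hab (DP.Con.tail (DP.Con.mem_right ih) hab hb)
  refine ⟨{z | DP.Con {w | w ∈ R ∧ c w = k} p z}, ⟨fun v hv => ?_, fun z hz z' hz' => ?_⟩, hcl u h⟩
  · exact DP.Con.mem_right hv
  · exact DP.Con.trans (DP.Con.symm (hcl z hz)) (hcl z' hz')

theorem PP28_zp (z : V) (m : ℕ) (e : Bool) : zp6 z m (if e = true then 2 else 5) = zpt z m (tb4 e) := by
  cases e <;> simp [zp6, zpt, tb4]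

/-- The white arm number `2` (top) or `5` (bottom) as a connected set. -/
theorem PP28_arm {c : V → Bool} {z : V} {m n : ℕ} (h : SxW c z m n) (e : Bool) :
    ∃ (W : Set V) (p u : V), CnS c false (ann z m n) W ∧ DP.Con W p u ∧ sd z p = m ∧ sd z u = n ∧
      sd (zpt z m (tb4 e)) p ≤ m / 64 ∧ sd (zpt z n (tb4 e)) u ≤ n / 64 := by
  obtain ⟨p, hp, u, hu, h1, h2, h3⟩ := h (if e = true then 2 else 5) (by cases e <;> simp)
    (by cases e <;> simp [kol6])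
  rw [PP28_zp] at h1 h2
  obtain ⟨W, hW, hc⟩ := PP28_comp h3
  exact ⟨W, p, u, PP28_reg (fun v hv => hv.1) hW, hc, hp, hu, h1, h2⟩

theorem PP28_sdz (z : V) (m : ℕ) (e : Bool) : sd z (zpt z m (tb4 e)) = m := by
  cases e <;> simp [zpt, tb4, sd]

/-- Inner hook: the set `U` hooks at the standard point of radius `m`. -/
theorem PP28_in {U W : Set V} {z p u : V} {m n r : ℕ} {e : Bool} (hU : Hok U (zpt z m (tb4 e)) r)
    (hW : DP.Con W p u) (h1 : sd (zpt z m (tb4 e)) p ≤ m / 64) (hu : sd z u = n) (hr : m / 64 ≤ r)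
    (hn : m + 3 * r ≤ n) : (U ∩ W).Nonempty := by
  refine hU W p u hW (h1.trans hr) ?_
  have h2 := sd_triangle z (zpt z m (tb4 e)) u
  rw [PP28_sdz, hu] at h2
  omega

/-- Outer hook: the set `U` hooks at the standard point of radius `n`. -/
theorem PP28_out {U W : Set V} {z p u : V} {m n r : ℕ} {e : Bool} (hU : Hok U (zpt z n (tb4 e)) r)
    (hW : DP.Con W p u) (h1 : sd (zpt z n (tb4 e)) u ≤ n / 64) (hp : sd z p = m) (hr : n / 64 ≤ r)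
    (hn : m + 3 * r ≤ n) : (U ∩ W).Nonempty := by
  refine hU W u p (DP.Con.symm hW) (h1.trans hr) ?_
  have h2 := sd_triangle z p (zpt z n (tb4 e))
  rw [PP28_sdz, hp, sd_comm p] at h2
  omega

theorem PP28_zpt0 (q : V) (i : ℕ) : zpt q 0 i = q := by
  unfold zpt
  split_ifs <;> simp

theorem PP28_hubW0 (z : V) (ℓ : ℕ) (e : Bool) : (zpt z (32 * ℓ) (tb4 e), ℓ) ∈ (hubW z ℓ e).all := by
  refine List.mem_append.2 (Or.inl (List.mem_map.2 ⟨zpt z (32 * ℓ) (tb4 e), ?_, rfl⟩))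
  refine List.mem_flatMap.2 ⟨((z.1, z.2 + sge e * (32 * ℓ)), due e, 112), by simp [hubW], ?_⟩
  refine List.mem_map.2 ⟨0, by simp, ?_⟩
  simp only [Nat.mul_zero, Nat.zero_mul, PP28_zpt0]
  cases e <;> simp [zpt, tb4, sge, sub_eq_add_neg]

theorem PP28_hubW1 (z : V) (ℓ : ℕ) (e : Bool) :
    (zpt z (256 * ℓ) (tb4 e), 8 * ℓ) ∈ (hubW z ℓ e).all := by
  refine List.mem_append.2 (Or.inr ?_)
  cases e <;> simp [hubW, zpt, tb4, sge, sub_eq_add_neg]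

theorem PP28_midW0 (x : V) (ℓ S : ℕ) (e : Bool) :
    (zpt x (32 * ℓ) (tb4 e), ℓ) ∈ (midW x ℓ S e).all := by
  refine List.mem_append.2 (Or.inl (List.mem_map.2 ⟨zpt x (32 * ℓ) (tb4 e), ?_, rfl⟩))
  refine List.mem_flatMap.2 ⟨((x.1, x.2 + sge e * (32 * ℓ)), due e, 16 * (S ^ 3 - 1)),
    by simp [midW], ?_⟩
  refine List.mem_map.2 ⟨0, by simp, ?_⟩
  simp only [Nat.mul_zero, Nat.zero_mul, PP28_zpt0]
  cases e <;> simp [zpt, tb4, sge, sub_eq_add_neg]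

theorem PP28_midW1 (x : V) (ℓ S : ℕ) (e : Bool) :
    (zpt x (32 * (S ^ 3 * ℓ)) (tb4 e), S ^ 3 * ℓ) ∈ (midW x ℓ S e).all := by
  refine List.mem_append.2 (Or.inr ?_)
  cases e <;> simp [midW, zpt, tb4, sge, sub_eq_add_neg, mul_assoc]

theorem PP28_midW2 (x : V) (ℓ S : ℕ) (e : Bool) (hS : 1 ≤ S) :
    (zpt (yc x ℓ S) (32 * ℓ) (tb4 e), ℓ) ∈ (midW x ℓ S e).all := by
  refine List.mem_append.2 (Or.inl (List.mem_map.2 ⟨zpt (yc x ℓ S) (32 * ℓ) (tb4 e), ?_, rfl⟩))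
  refine List.mem_flatMap.2 ⟨((x.1 + 32 * S * ℓ, x.2 + sge e * (32 * S * ℓ)), due (!e),
    16 * S - 16), by simp [midW], ?_⟩
  refine List.mem_map.2 ⟨16 * S - 16, by simp, ?_⟩
  obtain ⟨S', rfl⟩ : ∃ S', S = S' + 1 := ⟨S - 1, by omega⟩
  have h1 : 16 * (S' + 1) - 16 = 16 * S' := by omega
  have h2 : (2 * (16 * (S' + 1) - 16) * ℓ : ℕ) = 32 * S' * ℓ := by rw [h1]; ring
  show zpt (x.1 + 32 * ((S' + 1 : ℕ) : ℤ) * ℓ, x.2 + sge e * (32 * ((S' + 1 : ℕ) : ℤ) * ℓ))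
    (2 * (16 * (S' + 1) - 16) * ℓ) (due (!e)) = _
  rw [h2]
  cases e
  · simp only [due, zpt, tb4, sge, yc]
    push_cast
    norm_num
    ring
  · simp only [due, zpt, tb4, sge, yc]
    push_cast
    norm_num
    ring

theorem PP28 (h10 : PP10_stmt) (h13 : PP13_stmt) (h17 : PP17_stmt) : PP28_stmt := by
  intro c x m₀ n₀ ℓ₁ ℓ S ℓ₃ hP hX hY hO hL
  obtain ⟨p1, p2, p3, p4, p5, p6⟩ := hP
  have hP' : ParC m₀ n₀ ℓ₁ ℓ S ℓ₃ := ⟨p1, p2, p3, p4, p5, p6⟩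
  have e1 : 16 ≤ ℓ₁ := by omega
  have e2 : S * ℓ ≤ S ^ 3 * ℓ := by
    refine Nat.mul_le_mul_right ℓ ?_
    calc S = S * 1 := (mul_one S).symm
      _ ≤ S * (S * S) := Nat.mul_le_mul_left S (by nlinarith)
      _ = S ^ 3 := by ring
  have e3 : 16 * ℓ ≤ S * ℓ := Nat.mul_le_mul_right ℓ p4
  set T : ℕ := S ^ 3 * ℓ with hT
  set Q : ℕ := S * ℓ with hQ
  have hw := (h13.1 x ℓ₁ ℓ S ℓ₃ (by omega) (by omega) (by omega) (by omega)).2
  have hreg := (h17 x m₀ n₀ ℓ₁ ℓ S ℓ₃ false hP').1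
  have hwire : ∀ w ∈ Wwht x ℓ₁ ℓ S ℓ₃, ∃ U : Set V, CnS c false (ann x (29 * ℓ₁) (280 * ℓ₃)) U ∧
      ∀ q ∈ w.all, Hok U q.1 q.2 := by
    intro w hw1
    have hsub : ∀ q ∈ w.all, q ∈ Lwht x ℓ₁ ℓ S ℓ₃ := fun q hq => List.mem_flatMap.2 ⟨w, hw1, hq⟩
    obtain ⟨U, hU1, hU2⟩ := h10 c false w (hw w hw1) (fun q hq => hL q (hsub q hq))
    refine ⟨U, PP28_reg ?_ hU1, hU2⟩
    rintro v ⟨q, hq, hv⟩
    refine hreg ?_
    exact ⟨q, by simpa [Lcol] using hsub q hq, hv⟩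
  have hxy : sd x (yc x ℓ S) = 32 * Q := by
    have : (32 * (S : ℤ) * ℓ).natAbs = 32 * Q := by
      rw [show (32 * (S : ℤ) * ℓ) = ((32 * Q : ℕ) : ℤ) from by rw [hQ]; push_cast; ring]
      exact Int.natAbs_natCast _
    simp [sd, yc, this]
  have main : ∀ e : Bool, ∃ K : Set V, CnS c false (ann x (29 * ℓ₁) (280 * ℓ₃)) K ∧
        Hok K (zpt x (32 * ℓ₁) (tb4 e)) ℓ₁ ∧
        Hok K (zpt (yc x ℓ S) (32 * ℓ₁) (tb4 e)) ℓ₁ ∧
        Hok K (zpt x (256 * ℓ₃) (tb4 e)) (8 * ℓ₃) := by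
    intro e
    obtain ⟨U1, hU1, k1⟩ := hwire (hubW x ℓ₁ e) (by cases e <;> simp [Wwht])
    obtain ⟨U2, hU2, k2⟩ := hwire (hubW (yc x ℓ S) ℓ₁ e) (by cases e <;> simp [Wwht])
    obtain ⟨U3, hU3, k3⟩ := hwire (midW x ℓ S e) (by cases e <;> simp [Wwht])
    obtain ⟨U4, hU4, k4⟩ := hwire (hubW x ℓ₃ e) (by cases e <;> simp [Wwht])
    obtain ⟨W1, a1, b1, hW1, c1, d1, f1, g1, j1⟩ := PP28_arm hX e
    obtain ⟨W2, a2, b2, hW2, c2, d2, f2, g2, j2⟩ := PP28_arm hY e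
    obtain ⟨W3, a3, b3, hW3, c3, d3, f3, g3, j3⟩ := PP28_arm hO e
    have hW1' : CnS c false (ann x (29 * ℓ₁) (280 * ℓ₃)) W1 := by
      refine PP28_reg ?_ hW1
      rintro v ⟨i1, i2⟩
      exact ⟨by omega, by omega⟩
    have hW2' : CnS c false (ann x (29 * ℓ₁) (280 * ℓ₃)) W2 := by
      refine PP28_reg ?_ hW2
      rintro v ⟨i1, i2⟩
      have i3 := sd_triangle x v (yc x ℓ S)
      have i4 := sd_triangle x (yc x ℓ S) v
      rw [sd_comm v] at i3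
      exact ⟨by omega, by omega⟩
    have hW3' : CnS c false (ann x (29 * ℓ₁) (280 * ℓ₃)) W3 := by
      refine PP28_reg ?_ hW3
      rintro v ⟨i1, i2⟩
      exact ⟨by omega, by omega⟩
    -- the hooks
    have n1 : (U1 ∩ W1).Nonempty :=
      PP28_in (k1 _ (PP28_hubW1 x ℓ₁ e)) c1 g1 f1 (by omega) (by omega)
    have n2 : (U2 ∩ W2).Nonempty :=
      PP28_in (k2 _ (PP28_hubW1 (yc x ℓ S) ℓ₁ e)) c2 g2 f2 (by omega) (by omega)
    have n3 : (U3 ∩ W3).Nonempty :=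
      PP28_in (k3 _ (PP28_midW1 x ℓ S e)) c3 g3 f3 (by omega) (by omega)
    have n4 : (U3 ∩ W1).Nonempty :=
      PP28_out (k3 _ (PP28_midW0 x ℓ S e)) c1 j1 d1 (by omega) (by omega)
    have n5 : (U3 ∩ W2).Nonempty :=
      PP28_out (k3 _ (PP28_midW2 x ℓ S e (by omega))) c2 j2 d2 (by omega) (by omega)
    have n6 : (U4 ∩ W3).Nonempty :=
      PP28_out (k4 _ (PP28_hubW0 x ℓ₃ e)) c3 j3 d3 (by omega) (by omega)
    have g1 := PP28_glue hU3 hW1' n4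
    have g2 := PP28_glue g1 hW2' (n5.mono fun v hv => ⟨Or.inl hv.1, hv.2⟩)
    have g3 := PP28_glue g2 hW3' (n3.mono fun v hv => ⟨Or.inl (Or.inl hv.1), hv.2⟩)
    have g4 := PP28_glue g3 hU1 (n1.mono fun v hv => ⟨Or.inl (Or.inl (Or.inr hv.2)), hv.1⟩)
    have g5 := PP28_glue g4 hU2 (n2.mono fun v hv => ⟨Or.inl (Or.inl (Or.inr hv.2)), hv.1⟩)
    have g6 := PP28_glue g5 hU4 (n6.mono fun v hv => ⟨Or.inl (Or.inl (Or.inr hv.2)), hv.1⟩)
    refine ⟨_, g6, ?_, ?_, ?_⟩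
    · exact PP28_hok (fun v hv => Or.inl (Or.inl (Or.inr hv))) (k1 _ (PP28_hubW0 x ℓ₁ e))
    · exact PP28_hok (fun v hv => Or.inl (Or.inr hv)) (k2 _ (PP28_hubW0 (yc x ℓ S) ℓ₁ e))
    · exact PP28_hok (fun v hv => Or.inr hv) (k4 _ (PP28_hubW1 x ℓ₃ e))
  choose K hK using main
  exact ⟨K, hK⟩

end TP
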