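import Pool.Agent.helper2.SP.SpecTA

/-!
# Module sp:TA13: the deterministic conclusion
-/

namespace TP.TA

open DP MeasureTheory

/-- Neighbours from lifted positions. -/
theorem TA13_nxt (hPO : PO_stmt) {x : V} {N : ℕ} {u v : V} {L L' : ℤ} (hN : 1 ≤ N)
    (hu : Lf x N u L) (hv : Lf x N v L') (h : L' = L + 1) : nxt x N u v := by
  obtain ⟨hu, k, hk⟩ := hu
  obtain ⟨hv, k', hk'⟩ := hv
  obtain ⟨a1, a2⟩ := hPO.1 x N u hN hu
  obtain ⟨b1, b2⟩ := hPO.1 x N v hN hv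
  refine ⟨hu, hv, ?_⟩
  have hN' : (1 : ℤ) ≤ N := by exact_mod_cast hN
  have e : pos x N v - pos x N u = 1 + 8 * N * (k - k') := by
    rw [hk, hk'] at h
    linarith
  have h1 : k - k' ≤ 0 := by
    by_contra hc
    have h3 : 1 ≤ k - k' := by omega
    nlinarith
  have h2 : -1 ≤ k - k' := by
    by_contra hc
    have h3 : k - k' ≤ -2 := by omega
    nlinarith
  have h3 : k - k' = 0 ∨ k - k' = -1 := by omega
  rcases h3 with h3 | h3
  · left
    rw [h3] at e
    linarith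
  · right
    rw [h3] at e
    constructor <;> linarith

/-- Connections from a site off the cluster `K` stay off `K`. -/
theorem TA13_off {W K : Set V} {u z y : V} (hK : K = {v | DP.Con W u v}) (hz : z ∉ K)
    (h : DP.Con W z y) : DP.Con {v | v ∈ W ∧ v ∉ K} z y := by
  have key : ∀ v, DP.Con W z v → v ∉ K := by
    intro v hv hvK
    rw [hK] at hvK hz
    exact hz (DP.Con.trans hvK hv.symm)
  refine h.induct (fun v => DP.Con {v | v ∈ W ∧ v ∉ K} z v) (DP.Con.refl ⟨h.mem_left, hz⟩) ?_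
  intro a b ha hb hab hza ih
  exact ih.tail hab ⟨hb, key b (hza.tail hab hb)⟩

/-- The arm off `K`. -/
theorem TA13_side (h1 : TA1_stmt) (h2 : TA2_stmt) (h8 : TA8_stmt) {c : V → Bool} {x : V}
    {m n : ℕ} {K K' : Set V} (hx : Even (x.1 + x.2)) (hm : 1 ≤ m) (hmn : m < n) (hc : BC c)
    (hT : TC c x m n K K') {z2 y2 y1 z2' y2' y1' : V} (hy2 : y2 ∈ K') (hy2' : y2' ∈ K')
    (hz2 : z2 ∈ nbd (ann x m n) K') (hz2' : z2' ∈ nbd (ann x m n) K') (hn : nxt x n z2 y2)
    (hn' : nxt x m z2' y2') (hp : ∃ p ∈ bd x m, DP.Con (nbd (ann x m n) K') z2 p)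
    (hu : ∃ u ∈ bd x n, DP.Con (nbd (ann x m n) K') z2' u)
    (hc1 : Conn (Th x m n K c) false (ann x m n) z2 y1)
    (hc1' : Conn (Th x m n K c) false (ann x m n) z2' y1') :
    DP.Con {v | v ∈ ann x m n ∧ Th x m n K c v = false ∧ v ∉ K} y1' y1 := by
  obtain ⟨hK1, hK2, hK3, -⟩ := h1.1 c x m n K' hT.2.1
  have hcon : DP.Con (nbd (ann x m n) K') z2 z2' :=
    h8 x m n K' y2 z2 y2' z2' hx hm hmn hK1 hK3 (Or.inr ⟨hn, hn'⟩) hy2 hy2' hz2 hz2' hp hu
  obtain ⟨-, -, -, -, hTh, -, hdis, -⟩ := h2.2 c x m n K K' hc hT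
  obtain ⟨⟨u0, -, -, hKu⟩, -, -⟩ := (h2.1 c x m n K hc).2.2 hT.1
  have hz2K : ∀ v ∈ nbd (ann x m n) K', v ∉ K := fun v hv hvK =>
    Set.disjoint_left.1 hdis hvK hv
  have hA : DP.Con {v | v ∈ ann x m n ∧ Th x m n K c v = false ∧ v ∉ K} z2 z2' := by
    refine DP.Con.mono ?_ hcon
    intro v hv
    exact ⟨hv.1, hTh v hv, hz2K v hv⟩
  have hB : DP.Con {v | v ∈ ann x m n ∧ Th x m n K c v = false ∧ v ∉ K} z2 y1 := by
    refine DP.Con.mono ?_ (TA13_off hKu (hz2K z2 hz2) hc1)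
    intro v hv
    exact ⟨hv.1.1, hv.1.2, hv.2⟩
  have hB' : DP.Con {v | v ∈ ann x m n ∧ Th x m n K c v = false ∧ v ∉ K} z2' y1' := by
    refine DP.Con.mono ?_ (TA13_off hKu (hz2K z2' hz2') hc1')
    intro v hv
    exact ⟨hv.1.1, hv.1.2, hv.2⟩
  exact hB'.symm.trans (hA.symm.trans hB)

/-- Reversed paths without repeated bricks. -/
theorem TA13_rev {l : List V} (h : BNd l) : BNd l.reverse := by
  refine ⟨List.nodup_reverse.2 h.1, ?_⟩
  intro s w t hl u hu v hv hbr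
  have e : l = t.reverse ++ w :: s.reverse := by
    have e1 := congrArg List.reverse hl
    rw [List.reverse_reverse] at e1
    rw [e1]
    simp
  exact h.2 t.reverse w s.reverse e v (List.mem_reverse.2 hv) u (List.mem_reverse.2 hu) hbr.symm

/-- Colours of the sets `AS`. -/
theorem TA13_col (h1 : TA1_stmt) (h2 : TA2_stmt) {c : V → Bool} {x : V} {m n : ℕ} {K K' : Set V}
    (hc : BC c) (hT : TC c x m n K K') : ∀ i < 6, ∀ v ∈ AS c x m n K K' i,
      v ∈ ann x m n ∧ c v = kol6 i := by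
  obtain ⟨hK1, hK2, hK3, -, -, hK6, -⟩ := h1.1 c x m n K hT.1
  obtain ⟨hL1, hL2, hL3, -, -, hL6, -⟩ := h1.1 c x m n K' hT.2.1
  obtain ⟨-, -, hKK⟩ := (h2.1 c x m n K hc).2.2 hT.1
  obtain ⟨-, -, hLL⟩ := (h2.1 c x m n K' hc).2.2 hT.2.1
  intro i hi v hv
  have hi' : i = 0 ∨ i = 1 ∨ i = 2 ∨ i = 3 ∨ i = 4 ∨ i = 5 := by omega
  rcases hi' with rfl | rfl | rfl | rfl | rfl | rfl
  · simp only [AS, if_true] at hv
    exact ⟨hv.1, (hK6 v hv).trans (by decide)⟩
  · simp only [AS, if_true, one_ne_zero, if_false] at hv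
    exact ⟨hv.1, (hKK v hv.1 hv.2.1 hv.2.2).2.trans (by decide)⟩
  · simp only [AS, if_true, OfNat.ofNat_ne_zero, OfNat.ofNat_ne_one, if_false] at hv
    exact ⟨hL1 hv, (hL2 v hv).trans (by decide)⟩
  · simp only [AS, if_true, OfNat.ofNat_ne_zero, OfNat.ofNat_ne_one, if_false,
      show ¬ (3 = 2) by decide] at hv
    exact ⟨hv.1, (hL6 v hv).trans (by decide)⟩
  · simp only [AS, if_true, OfNat.ofNat_ne_zero, OfNat.ofNat_ne_one, if_false,
      show ¬ (4 = 2) by decide, show ¬ (4 = 3) by decide] at hv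
    exact ⟨hv.1, (hLL v hv.1 hv.2.1 hv.2.2).2.trans (by decide)⟩
  · simp only [AS, OfNat.ofNat_ne_zero, OfNat.ofNat_ne_one, if_false,
      show ¬ (5 = 2) by decide, show ¬ (5 = 3) by decide, show ¬ (5 = 4) by decide] at hv
    exact ⟨hK1 hv, (hK2 v hv).trans (by decide)⟩

/-- Cyclic order from the structure. -/
theorem TA13_cyc {s : Bool} {c : V → Bool} {x : V} {m n : ℕ} {K K' : Set V} {y z : ℕ → V}
    {L M : ℕ → ℤ} (S : SD s c x m n K K' y z L M) : Cyc6 x (ci s m n) y := by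
  have o1 := S.o1
  have o3 := S.o3
  have o4 := S.o4
  have o5 := S.o5
  have n0 := S.n0
  have n2 := S.n2
  have n3 := S.n3
  have n5 := S.n5
  refine ⟨L, fun i hi => (S.py i hi).2, ?_, by linarith⟩
  intro i hi
  have hi' : i = 0 ∨ i = 1 ∨ i = 2 ∨ i = 3 ∨ i = 4 := by omega
  rcases hi' with rfl | rfl | rfl | rfl | rfl
  · exact o1.1
  · show L 1 < L 2
    linarith [o1.2.1]
  · show L 2 < L 3
    linarith
  · exact o4.1
  · show L 4 < L 5
    linarith [o4.2.1]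

/-- TA13 -/
theorem TA13 (hPO : PO_stmt) (hBN : BN_stmt) (h1 : TA1_stmt) (h2 : TA2_stmt) (h8 : TA8_stmt)
    (h10 : TA10_stmt) (h11 : TA11_stmt) (h12 : TA12_stmt) : TA13_stmt := by
  intro c x m n K K' r₁ r₂ r₃ t₁ t₂ t₃ hx hm hmn hc hT hr3 hr2 hr3n hr1 hr12 ht3 ht2 ht3m ht1 ht12
    nb1 nb2 nb3 nb4 nb5 nb6
  obtain ⟨y, z, L, M, S⟩ := h10 true c x m n K K' hx hm hmn hc hT
  obtain ⟨y', z', L', M', S'⟩ := h10 false c x m n K K' hx hm hmn hc hT
  have eT : ci true m n = n := by simp [ci]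
  have eF : ci false m n = m := by simp [ci]
  have eT' : ci (!true) m n = m := by simp [ci]
  have eF' : ci (!false) m n = n := by simp [ci]
  have hn : 1 ≤ n := by omega
  have hT' : TC c x m n K' K := (h2.2 c x m n K K' hc hT).1
  obtain ⟨hK1, hK2, hK3, -⟩ := h1.1 c x m n K hT.1
  obtain ⟨hL1, hL2, hL3, -⟩ := h1.1 c x m n K' hT.2.1
  -- the points
  have py : ∀ i < 6, Lf x n (y i) (L i) := fun i hi => by
    have h := S.py i hi
    rwa [eT] at h
  have pz : ∀ i < 6, Lf x n (z i) (M i) := fun i hi => by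
    have h := S.pz i hi
    rwa [eT] at h
  have py' : ∀ i < 6, Lf x m (y' i) (L' i) := fun i hi => by
    have h := S'.py i hi
    rwa [eF] at h
  have pz' : ∀ i < 6, Lf x m (z' i) (M' i) := fun i hi => by
    have h := S'.pz i hi
    rwa [eF] at h
  obtain ⟨k0a, k0b, k0c⟩ := S.k0
  obtain ⟨k0a', k0b', k0c'⟩ := S'.k0
  obtain ⟨k1a, k1b, k1c⟩ := S.k1
  obtain ⟨k1a', k1b', k1c'⟩ := S'.k1
  obtain ⟨k2a, k2b, k2c⟩ := S.k2
  obtain ⟨k2a', k2b', k2c'⟩ := S'.k2
  obtain ⟨k3a, k3b, k3c⟩ := S.k3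
  obtain ⟨k3a', k3b', k3c'⟩ := S'.k3
  obtain ⟨k4a, k4b, k4c⟩ := S.k4
  obtain ⟨k4a', k4b', k4c'⟩ := S'.k4
  obtain ⟨k5a, k5b, k5c⟩ := S.k5
  obtain ⟨k5a', k5b', k5c'⟩ := S'.k5
  rw [eT'] at k0c k2c k3c k5c
  rw [eF'] at k0c' k2c' k3c' k5c'
  have hcon : ∀ i < 6, DP.Con (AS c x m n K K' i) (y' i) (y i) := by
    intro i hi
    have hi' : i = 0 ∨ i = 1 ∨ i = 2 ∨ i = 3 ∨ i = 4 ∨ i = 5 := by omega
    rcases hi' with rfl | rfl | rfl | rfl | rfl | rfl
    · simp only [AS, if_true]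
      exact (h8 x m n K (z 0) (y 0) (z' 0) (y' 0) hx hm hmn hK1 hK3
        (Or.inl ⟨TA13_nxt hPO hn (pz 0 hi) (py 0 hi) S.n0,
          TA13_nxt hPO hm (pz' 0 hi) (py' 0 hi) S'.n0⟩) k0a k0a' k0b k0b' k0c k0c').symm
    · simp only [AS, if_true, one_ne_zero, if_false]
      exact TA13_side h1 h2 h8 hx hm hmn hc hT k2a k2a' k2b k2b'
        (TA13_nxt hPO hn (pz 2 (by omega)) (py 2 (by omega)) S.n2)
        (TA13_nxt hPO hm (pz' 2 (by omega)) (py' 2 (by omega)) S'.n2) k2c k2c' k1a k1a'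
    · simp only [AS, if_true, OfNat.ofNat_ne_zero, OfNat.ofNat_ne_one, if_false]
      exact hL3 _ k2a' _ k2a
    · simp only [AS, if_true, OfNat.ofNat_ne_zero, OfNat.ofNat_ne_one, if_false,
        show ¬ (3 = 2) by decide]
      exact (h8 x m n K' (z 3) (y 3) (z' 3) (y' 3) hx hm hmn hL1 hL3
        (Or.inl ⟨TA13_nxt hPO hn (pz 3 hi) (py 3 hi) S.n3,
          TA13_nxt hPO hm (pz' 3 hi) (py' 3 hi) S'.n3⟩) k3a k3a' k3b k3b' k3c k3c').symm
    · simp only [AS, if_true, OfNat.ofNat_ne_zero, OfNat.ofNat_ne_one, if_false,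
        show ¬ (4 = 2) by decide, show ¬ (4 = 3) by decide]
      exact TA13_side h1 h2 h8 hx hm hmn hc hT' k5a k5a' k5b k5b'
        (TA13_nxt hPO hn (pz 5 (by omega)) (py 5 (by omega)) S.n5)
        (TA13_nxt hPO hm (pz' 5 (by omega)) (py' 5 (by omega)) S'.n5) k5c k5c' k4a k4a'
    · simp only [AS, OfNat.ofNat_ne_zero, OfNat.ofNat_ne_one, if_false,
        show ¬ (5 = 2) by decide, show ¬ (5 = 3) by decide, show ¬ (5 = 4) by decide]
      exact hK3 _ k5a' _ k5a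
  have hpath : ∀ i, ∃ l : List V, i < 6 → IsPath (AS c x m n K K' i) l (y' i) (y i) ∧ BNd l := by
    intro i
    by_cases hi : i < 6
    · obtain ⟨l, hl⟩ := hBN _ _ _ (hcon i hi)
      exact ⟨l, fun _ => hl⟩
    · exact ⟨[], fun h => absurd h hi⟩
  choose l hl using hpath
  have hav := h12 true c x m n K K' y z L M r₁ r₂ r₃ hx hm hmn hc hT S hr3 hr2
    (by rw [eT]; exact hr3n) hr1 hr12 nb1 nb2 nb3
  have hav' := h12 false c x m n K K' y' z' L' M' t₁ t₂ t₃ hx hm hmn hc hT S' ht3 ht2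
    (by rw [eF]; exact ht3m) ht1 ht12 nb4 nb5 nb6
  have hds := h11 true c x m n K K' y z L M r₂ r₃ hx hm hmn hc hT S hr3 hr2
    (by rw [eT]; exact hr3n) nb2.2 nb3.2
  have hds' := h11 false c x m n K K' y' z' L' M' t₂ t₃ hx hm hmn hc hT S' ht3 ht2
    (by rw [eF]; exact ht3m) nb5.2 nb6.2
  have hcol := TA13_col h1 h2 hc hT
  have hcy := TA13_cyc S
  have hcy' := TA13_cyc S'
  rw [eT] at hcy
  rw [eF] at hcy'
  refine ⟨y, y', fun i hi => ⟨(py i hi).1, (py' i hi).1⟩, hcy, hcy', ?_, ?_⟩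
  · intro i hi j hj hij
    have a1 := hds i hi j hj hij
    have a2 := hds' i hi j hj hij
    constructor <;> omega
  · intro E E' hE hE' hw hw' hA hA'
    have havE : ∀ i < 6, ∀ w ∈ l i, w ∉ av6 i E := by
      rintro i hi w hwl ⟨j, hj, hij, hjw⟩
      have a1 := hav i hi (l i).reverse (y' i) (by rw [eT']; exact (py' i hi).1)
        (hl i hi).1.reverse (TA13_rev (hl i hi).2) j hj hij w (List.mem_reverse.2 hwl)
      have a2 := sd_triangle (y j) (E.y j) w
      have a3 := hw j hj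
      rw [sd_comm] at a3
      omega
    have havE' : ∀ i < 6, ∀ w ∈ l i, w ∉ av6 i E' := by
      rintro i hi w hwl ⟨j, hj, hij, hjw⟩
      have a1 := hav' i hi (l i) (y i) (by rw [eF']; exact (py i hi).1)
        (hl i hi).1 (hl i hi).2 j hj hij w hwl
      have a2 := sd_triangle (y' j) (E'.y j) w
      have a3 := hw' j hj
      rw [sd_comm] at a3
      omega
    have harm : ∀ k : Bool, Arm6 c k x E E' := by
      intro k
      refine ⟨l, ?_, ?_⟩
      · intro i hi hk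
        refine ⟨y' i, y i, by rw [hE']; exact (py' i hi).1, hw' i hi,
          by rw [hE]; exact (py i hi).1, hw i hi, (hl i hi).1.1, (hl i hi).1.2.1,
          (hl i hi).1.2.2.1, ?_⟩
        intro w hwl
        obtain ⟨b1, b2⟩ := hcol i hi w ((hl i hi).1.2.2.2 w hwl)
        refine ⟨⟨?_, havE i hi w hwl, havE' i hi w hwl⟩, b2.trans hk⟩
        rw [hE, hE', min_eq_right hmn.le, max_eq_left hmn.le]
        exact b1
      · intro i hi j hj hki hkj hij
        have hkey : ∀ (A B : Set V), TC c x m n A B →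
            ∀ v ∈ nbd (ann x m n) A, ∀ w, w ∈ ann x m n ∧ Th x m n A c w = false ∧ w ∉ A →
              br v ≠ br w := by
          intro A B hAB v hv w hw
          obtain ⟨-, -, h⟩ := (h2.1 c x m n A hc).2.2 hAB.1
          exact (h w hw.1 hw.2.1 hw.2.2).1.2 v (Or.inr hv)
        have hcases : (i = 0 ∧ j = 1) ∨ (i = 1 ∧ j = 0) ∨ (i = 3 ∧ j = 4) ∨ (i = 4 ∧ j = 3) := by
          obtain ⟨c1, c2⟩ := hij
          have c3 : kol6 i = kol6 j := hki.trans hkj.symm
          rcases c2 with c2 | c2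
          · exact absurd c3 c2
          · have c4 : (decide (i % 3 ≠ 2) : Bool) = decide (j % 3 ≠ 2) := c3
            have c5 : (i % 3 ≠ 2) ↔ (j % 3 ≠ 2) := decide_eq_decide.1 c4
            omega
        rcases hcases with ⟨rfl, rfl⟩ | ⟨rfl, rfl⟩ | ⟨rfl, rfl⟩ | ⟨rfl, rfl⟩
        · intro v hv w hw
          have b1 := (hl 0 hi).1.2.2.2 v hv
          have b2 := (hl 1 hj).1.2.2.2 w hw
          simp only [AS, if_true] at b1
          simp only [AS, if_true, one_ne_zero, if_false] at b2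
          exact hkey K K' hT v b1 w b2
        · intro v hv w hw
          have b1 := (hl 0 hj).1.2.2.2 w hw
          have b2 := (hl 1 hi).1.2.2.2 v hv
          simp only [AS, if_true] at b1
          simp only [AS, if_true, one_ne_zero, if_false] at b2
          exact (hkey K K' hT w b1 v b2).symm
        · intro v hv w hw
          have b1 := (hl 3 hi).1.2.2.2 v hv
          have b2 := (hl 4 hj).1.2.2.2 w hw
          simp only [AS, if_true, OfNat.ofNat_ne_zero, OfNat.ofNat_ne_one, if_false,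
            show ¬ (3 = 2) by decide] at b1
          simp only [AS, if_true, OfNat.ofNat_ne_zero, OfNat.ofNat_ne_one, if_false,
            show ¬ (4 = 2) by decide, show ¬ (4 = 3) by decide] at b2
          exact hkey K' K hT' v b1 w b2
        · intro v hv w hw
          have b1 := (hl 3 hj).1.2.2.2 w hw
          have b2 := (hl 4 hi).1.2.2.2 v hv
          simp only [AS, if_true, OfNat.ofNat_ne_zero, OfNat.ofNat_ne_one, if_false,
            show ¬ (3 = 2) by decide] at b1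
          simp only [AS, if_true, OfNat.ofNat_ne_zero, OfNat.ofNat_ne_one, if_false,
            show ¬ (4 = 2) by decide, show ¬ (4 = 3) by decide] at b2
          exact (hkey K' K hT' w b1 v b2).symm
    exact ⟨harm true, harm false⟩

end TP.TA
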